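import Pool.Agent.VTP.StmtsT
import Pool.Agent.Helper40_ZOL.Fin
import Pool.Agent.Helper11_ZOL.MPla
import Pool.Agent.Helper24_ZOL.MGAU
import Pool.Agent.Helper9_ZOL.MSTEP

/-!
# VTP, row MUJ: the maps of knots
-/

set_option autoImplicit false

namespace Pool.Agent.VTP.H26

open Finset Pool.Agent.ZOL Pool.Agent.VTP

theorem tw_ok (h1 : TggStmt) (h2 : TpgStmt) (j : ℕ) :
    IsGauss (tw j) ∧ Planar (shadow (tw j)) := by
  have hnd : ((List.range (2 * j)).map (fun n => n + 2)).Nodup := by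
    apply List.Nodup.map _ List.nodup_range
    intro a b h
    simpa using h
  have h0 : 0 ∉ (List.range (2 * j)).map (fun n => n + 2) := by
    intro h
    rw [List.mem_map] at h
    obtain ⟨a, -, h⟩ := h
    omega
  have h1' : 1 ∉ (List.range (2 * j)).map (fun n => n + 2) := by
    intro h
    rw [List.mem_map] at h
    obtain ⟨a, -, h⟩ := h
    omega
  have he : Even ((List.range (2 * j)).map (fun n => n + 2)).length := by
    rw [List.length_map, List.length_range]
    exact even_two_mul j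
  exact ⟨h1.1 _ tov hnd h0 h1', h2.1 _ tov hnd h0 h1' he⟩

theorem muj (h1 : TggStmt) (h2 : TpgStmt) : MujStmt := by
  refine ⟨fun j => H40.mulK H24.mgau H11.mpla H9.mstep (tw j) (tw_ok h1 h2 j), ?_, ?_⟩
  · intro j w hw hp
    exact H40.lin_kn H24.mgau H11.mpla H9.mstep (tw j) (tw_ok h1 h2 j) hw hp
  · intro j D
    exact ⟨⟨H24.mgau _ _ D.2.1 (tw_ok h1 h2 j).1,
      H11.mpla _ _ D.2.1 (tw_ok h1 h2 j).1 D.2.2 (tw_ok h1 h2 j).2⟩, rfl⟩

end Pool.Agent.VTP.H26
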